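import Pool.Agent.H748.Whi.Int

/-!
# Determinants of invertible matrices over group rings in unitary representations

Let `G` be a torsion-free group. If the assembly map `H₁(BG; K(ℂ)) → K₁(ℂ[G])` is surjective, then
every invertible matrix `U` over `ℂ[G]` represents the class of `λ g` for some `λ ∈ ℂ` and `g ∈ G`,
and thus `|det ρ(U)| = |det ε(U)| ^ d` for all unitary representations `ρ : G → U(d)`, where `ε` is
the augmentation, and the Fuglede–Kadison determinant of `U` is `|det ε(U)|`.

We show this for RFRS groups (Agol), and for all groups whose finitely generated subgroups are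
residually torsion-free virtually abelian.

For arbitrary groups `G` (which may have torsion) we show it for the representations such that the
elements which act nontrivially are detected by torsion-free virtually abelian groups, in the
relative form `|det (ρ ⊗ σ)(U)| = |det σ(U)| ^ d`, where `σ` is an arbitrary unitary representation.
For invertible matrices `W` over `ℤ[G]` we deduce that `det F(W)` is a root of unity for the
representations `F` with finite image over number fields which satisfy this condition.

Proof. For torsion-free virtually abelian groups one uses Artin induction, which reduces to groups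
with a central element of infinite order in the abelianisation, and deformations `ρ ⊗ z ^ φ` of
representations: as `U` is invertible over `ℂ[G]`, the determinant is a unit of `ℂ[z, z⁻¹]`, i.e. a
monomial, and has constant absolute value on the unit circle. Different quotients are combined by
tensoring with regular representations of finite quotients and by approximating the logarithm on
the spectrum of `U* U` by polynomials.
-/

set_option autoImplicit false

namespace Pool.Agent.Results.MP_c052b4_al.UnitaryDeterminants

open Pool.Agent.H748.Sig Pool.Agent.H748.Art Pool.Agent.H748.Whi Matrix Polynomial Filter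
open scoped Kronecker

universe u v w

/-- the finitely generated subgroups of `G` are residually torsion-free virtually abelian -/
def LocallyResiduallyTFVA (G : Type u) [Group G] : Prop :=
  ∀ H : Subgroup G, H.FG → ∀ h : H, h ≠ 1 →
    ∃ (Q : Type u) (_ : Group Q) (f : H →* Q), TFVA Q ∧ f h ≠ 1

/-- the elements not killed by `f` are detected by homomorphisms from arbitrarily large finitely
generated subgroups to torsion-free virtually abelian groups -/
def TFVADetected {G : Type u} [Group G] {M : Type v} [Monoid M] (f : G →* M) : Prop :=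
  ∀ S : Finset G, ∃ H : Subgroup G, H.FG ∧ (∀ s ∈ S, s ∈ H) ∧
    ∀ h : H, f h ≠ 1 → ∃ (Q : Type u) (_ : Group Q) (q : H →* Q), TFVA Q ∧ q h ≠ 1

/-- the value `∑ W_g ⊗ τ(g)` of the matrix `W = ∑ W_g g` over `ℤ[G]` at a matrix valued function
`τ` on `G` -/
noncomputable def intValue {G : Type u} {R : Type v} [CommRing R] {n d : ℕ}
    (τ : G → Matrix (Fin d) (Fin d) R) (W : Matrix (Fin n) (Fin n) (MonoidAlgebra ℤ G)) :
    Matrix (Fin n × Fin d) (Fin n × Fin d) R :=
  Matrix.of fun x y => (W x.1 y.1).coeff.sum fun g c => (c : R) * τ g x.2 y.2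

theorem result {G : Type u} [Group G] {n : ℕ} :
    -- arbitrary groups, complex coefficients
    (∀ U : Matrix (Fin n) (Fin n) (MonoidAlgebra ℂ G), IsUnit U →
      ∀ (d e : ℕ) (ρ : G →* unitaryGroup (Fin d) ℂ) (σ : G →* unitaryGroup (Fin e) ℂ),
        TFVADetected ρ → ‖(value (fun g => (ρ g).val ⊗ₖ (σ g).val) U).det‖ =
          ‖(value (fun g => (σ g).val) U).det‖ ^ d) ∧
    -- arbitrary groups, integral coefficients
    (∀ W : Matrix (Fin n) (Fin n) (MonoidAlgebra ℤ G), IsUnit W →
      (∀ (d : ℕ) (ρ : G →* unitaryGroup (Fin d) ℂ), TFVADetected ρ →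
        ‖(intValue (fun g => (ρ g).val) W).det‖ = 1) ∧
      ∀ (K : Type w) [Field K] [NumberField K] (d : ℕ) (F : G →* GL (Fin d) K),
        (Set.range F).Finite → TFVADetected F →
          ∃ m : ℕ, 0 < m ∧ (intValue (fun g => (F g).val) W).det ^ m = 1) ∧
    -- RFRS groups and locally residually (torsion-free virtually abelian) groups
    (RFRS G ∨ LocallyResiduallyTFVA G →
      (∀ (M : Type v) [Monoid M] (f : G →* M), TFVADetected f) ∧
      ∀ U : Matrix (Fin n) (Fin n) (MonoidAlgebra ℂ G), IsUnit U →
        (∀ (d : ℕ) (ρ : G →* unitaryGroup (Fin d) ℂ),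
          ‖(value (fun g => (ρ g).val) U).det‖ = ‖(augm U).det‖ ^ d) ∧
        ∀ P : ℕ → ℝ[X],
          (∀ a b ε : ℝ, 0 < a → 0 < ε → ∀ᶠ k in atTop, ∀ x : ℝ, a ≤ x → x ≤ b →
            |(P k).eval x - Real.log x| ≤ ε) →
          Tendsto (fun k => ∑ i, (aeval (adj U * U) (P k) i i).coeff 1) atTop
            (nhds ((2 * Real.log ‖(augm U).det‖ : ℝ) : ℂ))) := by
  have hum : ∀ (d : ℕ) (ρ : G →* unitaryGroup (Fin d) ℂ), TFVADetected ρ → Det0 (um ρ) := by
    intro d ρ hρ S
    obtain ⟨H, h1, h2, h3⟩ := hρ S
    refine ⟨H, h1, h2, fun h hne => h3 h ?_⟩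
    intro hc
    apply hne
    show (ρ h).val = 1
    rw [hc]
    rfl
  refine ⟨?_, ?_, ?_⟩
  · rintro U ⟨⟨U, V, hUV, hVU⟩, rfl⟩ d e ρ σ hρ
    have h1 := tensor_det hUV hVU (um ρ) (um_isU ρ) (um σ) (um_isU σ) (hum d ρ hρ)
    rw [← value_eq, ← value_eq, Fintype.card_fin] at h1
    exact h1
  · rintro W ⟨⟨W, V, hWV, hVW⟩, rfl⟩
    constructor
    · intro d ρ hρ
      have h1 := norm_det_int hWV hVW (um ρ) (um_isU ρ) (hum d ρ hρ)
      have h2 : evZ (um ρ) W = intValue (fun g => (ρ g).val) W := by
        ext p q
        exact evZ_apply _ _ p q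
      rw [h2] at h1
      exact h1
    · intro K _ _ d F hF hd
      have h1 := root_det_int hWV hVW ((Units.coeHom (Matrix (Fin d) (Fin d) K)).comp F) (by
        refine (hF.image fun x : GL (Fin d) K => (x : Matrix (Fin d) (Fin d) K)).subset ?_
        rintro _ ⟨g, rfl⟩
        exact ⟨F g, ⟨g, rfl⟩, rfl⟩) (by
        intro S
        obtain ⟨H, h1, h2, h3⟩ := hd S
        refine ⟨H, h1, h2, fun h hne => h3 h ?_⟩
        intro hc
        apply hne
        show ((F h : GL (Fin d) K) : Matrix (Fin d) (Fin d) K) = 1
        rw [hc]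
        rfl)
      have h2 : evZ ((Units.coeHom (Matrix (Fin d) (Fin d) K)).comp F) W =
          intValue (fun g => (F g).val) W := by
        ext p q
        exact evZ_apply _ _ p q
      rw [h2] at h1
      exact h1
  · intro hG
    have hG' : ∀ H : Subgroup G, H.FG → ∀ h : H, h ≠ 1 → Seen h := by
      rcases hG with hG | hG
      · exact hG.seen
      · exact hG
    refine ⟨fun M _ f => det0_of_all hG' f, ?_⟩
    rintro U ⟨⟨U, V, hUV, hVU⟩, rfl⟩
    obtain ⟨h1, h2⟩ := part2D hG' hUV hVU
    constructor
    · intro d ρ
      have h3 := h1 (Fin d) (um ρ) (um_isU ρ)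
      rw [← value_eq, ← augm_eq, Fintype.card_fin] at h3
      exact h3
    · rw [augm_eq]
      exact h2

end Pool.Agent.Results.MP_c052b4_al.UnitaryDeterminants
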